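import Pool.Agent.W323.SC.Stm

/-! Rank-3 matroids are spanning-correlated: elementary facts on closures (part M0). -/

set_option autoImplicit false
open Finset
open scoped Classical

namespace Pool.Agent.W675.SC

open Pool.Agent.W323.SC

theorem mem_clF {n : ℕ} (M : Matroid (Fin n)) (S : Set (Fin n)) (x : Fin n) :
    x ∈ clF M S ↔ x ∈ M.closure S := by
  simp [clF]

theorem m0 : S_M0 := by
  intro n M hE e f hef hI
  have hsub : ∀ X : Set (Fin n), X ⊆ M.E := by
    intro X
    rw [hE]
    exact Set.subset_univ X
  have hmem : ∀ x : Fin n, x ∈ M.E := by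
    intro x
    rw [hE]
    exact Set.mem_univ x
  have hpair : ({e, f} : Set (Fin n)) = {f, e} := Set.pair_comm e f
  have hpair' : ({e, f} : Finset (Fin n)) = {f, e} := Finset.pair_comm e f
  have he2 : e ∈ clF M {e, f} := by
    rw [mem_clF]
    exact M.mem_closure_of_mem (by simp) (hsub _)
  have hf2 : f ∈ clF M {e, f} := by
    rw [mem_clF]
    exact M.mem_closure_of_mem (by simp) (hsub _)
  have hIe : M.Indep {e} := hI.subset (by simp)
  have hIf : M.Indep {f} := hI.subset (by simp)
  have hfe : f ∉ M.closure {e} := by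
    rw [hIe.notMem_closure_iff_of_notMem (by simp [hef.symm]) (hmem f)]
    rw [← hpair]
    exact hI
  have hefc : e ∉ M.closure {f} := by
    rw [hIf.notMem_closure_iff_of_notMem (by simp [hef]) (hmem e)]
    exact hI
  have hinter : M.closure {e} ∩ M.closure {f} = M.closure ∅ := by
    have h := Matroid.Indep.closure_inter_eq_inter_closure (M := M) (I := {e}) (J := {f})
      (by rw [Set.singleton_union]; exact hI)
    rw [← h]
    congr 1
    ext x
    simp only [Set.mem_inter_iff, Set.mem_singleton_iff, Set.mem_empty_iff_false, iff_false,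
      not_and]
    intro h1 h2
    exact hef (h1.symm.trans h2)
  have he0 : e ∉ M.closure ∅ := fun h =>
    hefc (M.closure_subset_closure (Set.empty_subset _) h)
  have hf0 : f ∉ M.closure ∅ := fun h =>
    hfe (M.closure_subset_closure (Set.empty_subset _) h)
  refine ⟨?_, ?_, ?_, ?_, ?_, ?_, ?_⟩
  · ext x
    simp only [LL, TT, mem_union, mem_sdiff, mem_univ, true_and, mem_insert, mem_singleton]
    constructor
    · rintro (⟨_, h⟩ | h)
      · exact h
      · rintro (h1 | h1)
        · exact h (h1 ▸ he2)
        · exact h (h1 ▸ hf2)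
    · intro h
      by_cases hx : x ∈ clF M {e, f}
      · exact Or.inl ⟨hx, h⟩
      · exact Or.inr hx
  · rw [Finset.disjoint_left]
    intro x hx
    simp only [LL, TT, mem_sdiff, mem_univ, true_and] at hx ⊢
    exact fun h => h hx.1
  · intro x hx
    simp only [PP, LL, mem_sdiff, mem_insert, mem_singleton, mem_clF] at hx ⊢
    refine ⟨M.closure_subset_closure (by simp) hx.1, ?_⟩
    rintro (h | h)
    · exact hx.2 h
    · exact hfe (h ▸ hx.1)
  · intro x hx
    simp only [PP, LL, mem_sdiff, mem_insert, mem_singleton, mem_clF] at hx ⊢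
    refine ⟨M.closure_subset_closure (by simp) hx.1, ?_⟩
    rintro (h | h)
    · exact hefc (h ▸ hx.1)
    · exact hx.2 h
  · ext x
    simp only [PP, mem_inter, mem_sdiff, mem_singleton, mem_clF]
    constructor
    · rintro ⟨⟨h1, _⟩, h2, _⟩
      rw [← hinter]
      exact ⟨h1, h2⟩
    · intro h
      have h' := h
      rw [← hinter] at h'
      refine ⟨⟨h'.1, ?_⟩, h'.2, ?_⟩
      · intro hx
        exact he0 (hx ▸ h)
      · intro hx
        exact hf0 (hx ▸ h)
  · unfold LL
    rw [hpair, hpair']
  · unfold TT
    rw [hpair]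

end Pool.Agent.W675.SC
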